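import Pool.Agent.Helper86.RM.Cnt
import Pool.Agent.Helper86.RM.Rnd
import Pool.Agent.Helper86.RM.Lin
import Pool.Agent.Helper86.RM.Par
import Pool.Graph.R_seed8.Results.MP_cfebfb_ag.SpecialDegrees
import Pool.Graph.R_seed8.Results.MP_cfebfb_ag.SegreExplicitSurface

/-!
# Segre's conjecture for random multiplicities

A sequence of identically distributed random multiplicities, of any dependence, with a finite second
moment and linear growth of the sums gives only non-special linear systems, in all degrees, as soon as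
the number of the points is large; the second moment cannot be replaced by any weaker moment, even for
independent multiplicities. All but exponentially few vectors of multiplicities `≤ M` at `n ≥ 2 ^ 22`
points have at most `10 ^ 6 M / √n` special degrees, for all `M`.

The case of pairwise independent multiplicities of the first statement, and the case `n ≥ 400000 M` of the
last one (no special degree), are in the library under the problem MP_70e04f_ag (`RandomEveryDegree`).

Good points are: general points (an open set which does not depend on the degree), all points with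
algebraically independent coordinates, so that ONE infinite sequence of points serves for almost all
sequences of multiplicities, and the explicit points of `SegreExplicitSurface` in the library.

The geometric input is the theorem `SpecialDegrees` (at algebraically independent points the class `Large` of
`SegreExplicitSurface`) of the library: a special system satisfies
`∑ w i < 25000 (μ + 1) ^ 2`, `μ` the largest multiplicity, and its special degrees are close to each
other. Special systems in (2): two multiplicities `a`, `b` dominate the others,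
`∑ (w l + 1).choose 2 < (a - 1) (b - 1)` for the others, and the double line through these two points is
a fixed part in degree `a + b - 2`. They appear at the second arrival of a record value of a law with
very sparse values.
-/

set_option autoImplicit false

namespace Pool.Agent.Results.MP_cfebfb_ag.RandomMultiplicities

open Pool.Agent.TH167.SHDefs MeasureTheory ProbabilityTheory Pool.Agent.Helper86.RM
open Pool.Agent.Results.MP_cfebfb_ag.SegreExplicitSurface (explicitPoints explicit_indep)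

/-- `p P` holds for general points: all `n`-tuples `P` of points of the plane (in affine coordinates) outside
of a hypersurface. -/
def ForGeneral {n : ℕ} (p : (Fin n → Fin 2 → ℂ) → Prop) : Prop :=
  ∃ F : MvPolynomial (Fin n × Fin 2) ℂ, F ≠ 0 ∧ ∀ P : Fin n → Fin 2 → ℂ,
    MvPolynomial.eval (fun ij : Fin n × Fin 2 => P ij.1 ij.2) F ≠ 0 → p P

/-- `p P` holds for general points, for all points whose `2 n` coordinates are algebraically independent over
`ℚ`, and for the explicit points with the coordinates `exp (2 ^ (k / (2 n)))`, `k = 0, …, 2 n - 1`. -/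
def ForGoodPoints {n : ℕ} (p : (Fin n → Fin 2 → ℂ) → Prop) : Prop :=
  ForGeneral p ∧
    (∀ P : Fin n → Fin 2 → ℂ, AlgebraicIndependent ℚ (fun ij : Fin n × Fin 2 => P ij.1 ij.2) → p P) ∧
    p (explicitPoints n)

/-- The linear systems with the multiplicities `w` are non-special in ALL degrees. -/
def NeverSpecial {n : ℕ} (w : Fin n → ℕ) : Prop := ForGoodPoints fun P => ∀ d, ¬ Special P d w

/-- There are at most `k` degrees in which the linear system with the multiplicities `w` is special. -/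
def FewSpecial {n : ℕ} (k : ℝ) (w : Fin n → ℕ) : Prop :=
  ForGoodPoints fun P => ({d : ℕ | Special P d w}.ncard : ℝ) ≤ k ∧ {d : ℕ | Special P d w}.Finite

/-- Special systems at algebraically independent points. -/
theorem not_large {n b : ℕ} {w : Fin n → ℕ} (hw : ∀ i, w i ≤ b) {P : Fin n → Fin 2 → ℂ}
    (hP : AlgebraicIndependent ℚ (fun ij : Fin n × Fin 2 => P ij.1 ij.2)) {d : ℕ}
    (hd : Special P d w) : ∑ i, (w i : ℤ) +
        4 * |((d + 2).choose 2 : ℤ) - ∑ i, ((w i + 1).choose 2 : ℤ)| < 25000 * ((b : ℤ) + 1) ^ 2 := by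
  by_contra hcon
  push Not at hcon
  have hL : Pool.Agent.Y205.AV.Large d w :=
    ⟨Finset.univ, b, _, fun i _ => hw i, fun i hi => absurd (Finset.mem_univ i) hi, le_rfl,
      Or.inl hcon⟩
  have h := Pool.Agent.Y205.AV.large_exp hL hP
  have h1 : Module.finrank ℂ ↥(sys P d w) =
      Nat.choose (d + 2) 2 - ∑ i, Nat.choose (w i + 1) 2 := h
  have h2 : ∑ i, ((w i + 1).choose 2 : ℤ) = ((∑ i, Nat.choose (w i + 1) 2 : ℕ) : ℤ) := by
    push_cast
    rfl
  apply hd
  unfold dimL virtdim
  rw [h1, h2]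
  omega

theorem never_of_sum {n b : ℕ} (hn : 1 ≤ n) {w : Fin n → ℕ} (hw : ∀ i, w i ≤ b)
    (h : 25000 * (b + 1) ^ 2 ≤ ∑ i, w i) : NeverSpecial w := by
  have h2 : (25000 : ℤ) * ((b : ℤ) + 1) ^ 2 ≤ ∑ i, (w i : ℤ) := by exact_mod_cast h
  have key : ∀ P : Fin n → Fin 2 → ℂ,
      AlgebraicIndependent ℚ (fun ij : Fin n × Fin 2 => P ij.1 ij.2) → ∀ d, ¬ Special P d w := by
    intro P hP d hd
    have h3 := not_large hw hP hd
    have h4 := abs_nonneg (((d + 2).choose 2 : ℤ) - ∑ i, ((w i + 1).choose 2 : ℤ))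
    linarith
  refine ⟨?_, key, key _ (explicit_indep hn)⟩
  obtain ⟨Q, hQ, hQ'⟩ := SpecialDegrees.result n b w hw
  refine ⟨Q, hQ, fun P hP d hd => ?_⟩
  have h1 := ((hQ' P hP).1 d d le_rfl hd hd).1
  rw [sub_self, zero_mul, zero_add] at h1
  exact absurd h1 (not_lt.2 h2)

theorem two_mul_choose (d : ℕ) :
    (2 : ℤ) * ((d + 2).choose 2 : ℕ) = ((d : ℤ) + 2) * ((d : ℤ) + 1) := by
  have h5 := Nat.choose_two_right (d + 2)
  have h6 : 2 ∣ (d + 2) * (d + 2 - 1) := by
    have h7 : (d + 2) * (d + 2 - 1) = (d + 1) * (d + 1 + 1) := by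
      rw [show d + 2 - 1 = d + 1 by omega]
      ring
    rw [h7]
    exact (Nat.even_mul_succ_self (d + 1)).two_dvd
  rw [h5]
  have h8 : 2 * ((d + 2) * (d + 2 - 1) / 2) = (d + 2) * (d + 1) := by
    rw [Nat.mul_div_cancel' h6]
    congr 1
  exact_mod_cast h8

/-- The number of the special degrees from the two inequalities. -/
theorem few_core {n M : ℕ} {w : Fin n → ℕ} (hM : 1 ≤ M) (hn : 2 ^ 22 ≤ n)
    (hb : n ≤ 8 * big M w) (hcase : n < 1600000 * M) (D : Set ℕ)
    (hA : ∀ d d' : ℕ, d ≤ d' → d ∈ D → d' ∈ D →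
      ((d' : ℤ) - d) * (d + d' + 3) < 25000 * ((M : ℤ) + 1) ^ 2)
    (hB : ∀ d ∈ D, ∑ i, ((w i + 1).choose 2 : ℤ) ≤
      ((d + 2).choose 2 : ℤ) + 6409 * ((M : ℤ) + 1) ^ 2) :
    (D.ncard : ℝ) ≤ 10 ^ 6 * M / √n ∧ D.Finite := by
  have hsq : n * M ^ 2 ≤ 32 * ∑ i, w i ^ 2 := sq_of_big M w hb
  have hn0 : (0 : ℝ) < n := by
    have : 0 < n := by omega
    exact_mod_cast this
  set r : ℝ := √n with hr
  have hr2 : r ^ 2 = n := Real.sq_sqrt hn0.le
  have hr0 : 2048 ≤ r := by
    apply Real.le_sqrt_of_sq_le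
    have : ((2 ^ 22 : ℕ) : ℝ) ≤ n := by exact_mod_cast hn
    norm_num at this ⊢
    exact this
  have hMr : (1 : ℝ) ≤ M := by exact_mod_cast hM
  have hlow : ∀ d ∈ D, (M : ℝ) * r ≤ 8 * ((d : ℝ) + 2) := by
    intro d hd
    have h3 := hB d hd
    have h4 := two_mul_choose d
    have h5 : ∑ i, (w i : ℤ) ^ 2 ≤ 2 * ∑ i, ((w i + 1).choose 2 : ℤ) := by
      rw [Finset.mul_sum]
      refine Finset.sum_le_sum fun i _ => ?_
      have h6 : w i ^ 2 ≤ 2 * (w i + 1).choose 2 := by
        rw [Nat.choose_two_right, Nat.add_sub_cancel,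
          Nat.mul_div_cancel' (by rw [mul_comm]; exact (Nat.even_mul_succ_self (w i)).two_dvd)]
        nlinarith
      exact_mod_cast h6
    have h6 : (n : ℤ) * (M : ℤ) ^ 2 ≤ 32 * ∑ i, (w i : ℤ) ^ 2 := by exact_mod_cast hsq
    have hn' : (2 ^ 22 : ℤ) ≤ n := by exact_mod_cast hn
    have hM' : (1 : ℤ) ≤ M := by exact_mod_cast hM
    have h7 : (n : ℤ) * (M : ℤ) ^ 2 ≤ 64 * ((d : ℤ) + 2) ^ 2 := by
      have h8 : ((M : ℤ) + 1) ^ 2 ≤ 4 * (M : ℤ) ^ 2 := by nlinarith
      have h9 : (2 ^ 22 : ℤ) * (M : ℤ) ^ 2 ≤ n * (M : ℤ) ^ 2 :=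
        mul_le_mul_of_nonneg_right hn' (sq_nonneg _)
      have h10 : ((d : ℤ) + 2) * ((d : ℤ) + 1) ≤ ((d : ℤ) + 2) ^ 2 := by nlinarith
      nlinarith
    have h8 : (r * M) ^ 2 ≤ (8 * ((d : ℝ) + 2)) ^ 2 := by
      rw [mul_pow, hr2, mul_pow]
      have : ((n : ℤ) * (M : ℤ) ^ 2 : ℝ) ≤ (64 * ((d : ℤ) + 2) ^ 2 : ℝ) := by exact_mod_cast h7
      norm_num at this ⊢
      exact this
    have h9 := abs_le_of_sq_le_sq h8 (by positivity)
    rw [mul_comm]
    exact (le_abs_self _).trans h9
  rcases Set.eq_empty_or_nonempty D with hemp | hne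
  · rw [hemp, Set.ncard_empty]
    refine ⟨?_, Set.finite_empty⟩
    push_cast
    positivity
  have hd0 : sInf D ∈ D := Nat.sInf_mem hne
  set d0 := sInf D with hd0def
  have hr00 : 0 < r := by linarith
  set K : ℝ := 800000 * M / r with hK
  have hK0 : 0 ≤ K := by positivity
  have hsub : D ⊆ ↑(Finset.Icc d0 (d0 + ⌊K⌋₊)) := by
    intro d hd
    have hle : d0 ≤ d := Nat.sInf_le hd
    rw [Finset.coe_Icc, Set.mem_Icc]
    refine ⟨hle, ?_⟩
    have h2 : ((d : ℝ) - d0) * (d0 + d + 3) < 25000 * ((M : ℝ) + 1) ^ 2 := by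
      have h3 := hA d0 d hle hd0 hd
      exact_mod_cast h3
    have h3 := hlow d0 hd0
    have hle' : (d0 : ℝ) ≤ d := by exact_mod_cast hle
    have hd00 : (0 : ℝ) ≤ d0 := Nat.cast_nonneg _
    have h4 : ((d : ℝ) - d0) * (M * r) ≤ ((d : ℝ) - d0) * (8 * (d0 + d + 3)) := by
      apply mul_le_mul_of_nonneg_left _ (by linarith)
      linarith
    have h5 : ((M : ℝ) + 1) ^ 2 ≤ 4 * (M : ℝ) ^ 2 := by nlinarith
    have h6 : ((d : ℝ) - d0) * (M * r) ≤ 800000 * (M : ℝ) ^ 2 := by nlinarith
    have h7 : (d : ℝ) - d0 ≤ K := by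
      rw [hK, le_div_iff₀ hr00]
      have hM0 : (0 : ℝ) < M := by linarith
      have h8 : (((d : ℝ) - d0) * r) * M ≤ (800000 * (M : ℝ)) * M := by nlinarith
      exact le_of_mul_le_mul_right h8 hM0
    have h8 : ((d - d0 : ℕ) : ℝ) ≤ K := by
      rw [Nat.cast_sub hle]
      exact h7
    have h9 : d - d0 ≤ ⌊K⌋₊ := Nat.le_floor h8
    omega
  refine ⟨?_, (Finset.finite_toSet _).subset hsub⟩
  have hcard : D.ncard ≤ ⌊K⌋₊ + 1 := by
    have h1 := Set.ncard_le_ncard hsub (Finset.finite_toSet _)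
    rw [Set.ncard_coe_finset, Nat.card_Icc] at h1
    omega
  have h1 : (D.ncard : ℝ) ≤ K + 1 := by
    have h2 : (D.ncard : ℝ) ≤ (⌊K⌋₊ : ℝ) + 1 := by exact_mod_cast hcard
    exact h2.trans (by linarith [Nat.floor_le hK0])
  refine h1.trans ?_
  have h2 : (n : ℝ) ≤ 1600000 * M := by exact_mod_cast hcase.le
  rw [hK, le_div_iff₀ hr00, add_mul, div_mul_cancel₀ _ hr00.ne', one_mul]
  rw [← hr2] at h2
  nlinarith

theorem never_of_big {n M : ℕ} {w : Fin n → ℕ} (hM : 1 ≤ M) (hn : 1600000 * M ≤ n)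
    (hw : ∀ i, w i ≤ M) (hb : n ≤ 8 * big M w) : NeverSpecial w := by
  have hsum : n * M ≤ 16 * ∑ i, w i := sum_of_big M w hb
  apply never_of_sum (by omega) hw
  have h2 : (M + 1) ^ 2 ≤ 4 * M ^ 2 := by nlinarith
  have h3 : 1600000 * M * M ≤ n * M := Nat.mul_le_mul_right _ hn
  nlinarith

theorem few_of_big {n M : ℕ} {w : Fin n → ℕ} (hM : 1 ≤ M) (hn : 2 ^ 22 ≤ n)
    (hw : ∀ i, w i ≤ M) (hb : n ≤ 8 * big M w) : FewSpecial (10 ^ 6 * M / √n) w := by
  by_cases hcase : 1600000 * M ≤ n
  · have hnev := never_of_big hM hcase hw hb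
    have hemp : ∀ P : Fin n → Fin 2 → ℂ, (∀ d, ¬ Special P d w) →
        ({d : ℕ | Special P d w}.ncard : ℝ) ≤ 10 ^ 6 * M / √n ∧ {d : ℕ | Special P d w}.Finite := by
      intro P hP
      have h4 : {d : ℕ | Special P d w} = ∅ := by
        ext d
        simpa using hP d
      rw [h4]
      refine ⟨?_, Set.finite_empty⟩
      rw [Set.ncard_empty]
      push_cast
      positivity
    obtain ⟨⟨F, hF, hF'⟩, h2, h3⟩ := hnev
    exact ⟨⟨F, hF, fun P hP => hemp P (hF' P hP)⟩, fun P hP => hemp P (h2 P hP), hemp _ h3⟩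
  · have hcase' : n < 1600000 * M := not_le.1 hcase
    have h0 : (0 : ℤ) ≤ ∑ i, (w i : ℤ) := Finset.sum_nonneg fun i _ => Int.natCast_nonneg _
    have key : ∀ P : Fin n → Fin 2 → ℂ,
        AlgebraicIndependent ℚ (fun ij : Fin n × Fin 2 => P ij.1 ij.2) →
        ({d : ℕ | Special P d w}.ncard : ℝ) ≤ 10 ^ 6 * M / √n ∧ {d : ℕ | Special P d w}.Finite := by
      intro P hP
      refine few_core hM hn hb hcase' _ (fun d d' _ hd hd' => ?_) (fun d hd => ?_)
      · have h1 := not_large hw hP hd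
        have h2 := not_large hw hP hd'
        have h3 := two_mul_choose d
        have h4 := two_mul_choose d'
        have h5 := neg_abs_le (((d + 2).choose 2 : ℤ) - ∑ i, ((w i + 1).choose 2 : ℤ))
        have h6 := le_abs_self (((d' + 2).choose 2 : ℤ) - ∑ i, ((w i + 1).choose 2 : ℤ))
        nlinarith
      · have h1 := not_large hw hP hd
        have h5 := neg_abs_le (((d + 2).choose 2 : ℤ) - ∑ i, ((w i + 1).choose 2 : ℤ))
        nlinarith [sq_nonneg ((M : ℤ) + 1)]
    refine ⟨?_, key, key _ (explicit_indep (by omega))⟩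
    obtain ⟨Q, hQ, hQ'⟩ := SpecialDegrees.result n M w hw
    refine ⟨Q, hQ, fun P hP => ?_⟩
    obtain ⟨hA, -, -, hB, -⟩ := hQ' P hP
    refine few_core hM hn hb hcase' _ (fun d d' hdd hd hd' => ?_) (fun d hd => ?_)
    · have h1 := (hA d d' hdd hd hd').1
      linarith
    · have h1 := (hB d hd).2
      have h2 : (-1 : ℤ) ≤ dimL P d w := by
        unfold dimL
        omega
      have h3 : (-1 : ℤ) - 6409 * ((M : ℤ) + 1) ^ 2 ≤ virtdim d w := by linarith
      unfold virtdim at h3
      linarith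

theorem count_box (n M : ℕ) (p : (Fin n → ℕ) → Prop)
    (hp : ∀ w : Fin n → ℕ, (∀ i, w i ≤ M) → n ≤ 8 * big M w → p w) :
    ({w : Fin n → Fin (M + 1) | ¬ p (fun i => (w i : ℕ))}.ncard : ℝ) ≤
      (4 / 5) ^ n * ((M : ℝ) + 1) ^ n := by
  classical
  refine le_trans ?_ (count_real n M)
  have h1 : {w : Fin n → Fin (M + 1) | ¬ p (fun i => (w i : ℕ))} ⊆
      ↑(Finset.univ.filter fun w : Fin n → Fin (M + 1) => 8 * big M (fun i => (w i : ℕ)) < n) := by
    intro w hw
    rw [Finset.coe_filter, Set.mem_ofPred_eq]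
    refine ⟨Finset.mem_univ _, ?_⟩
    by_contra hcon
    exact hw (hp _ (fun i => Nat.lt_succ_iff.1 (w i).isLt) (not_lt.1 hcon))
  have h2 := Set.ncard_le_ncard h1 (Finset.finite_toSet _)
  rw [Set.ncard_coe_finset] at h2
  exact_mod_cast h2

theorem special_of_pair (x : ℕ → ℕ) {n i j : ℕ} (hij : i < j) (hj : j < n) (hi2 : 2 ≤ x i)
    (hj2 : 2 ≤ x j)
    (hs : ∑ l ∈ ((Finset.range n).erase i).erase j, (x l + 1).choose 2 + 1 ≤ (x i - 1) * (x j - 1)) :
    ForGoodPoints fun P => Special P (x i + x j - 2) (fun l : Fin n => x l) := by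
  classical
  set i' : Fin n := ⟨i, by omega⟩ with hi'
  set j' : Fin n := ⟨j, hj⟩ with hj'
  have hne : i' ≠ j' := by
    intro h
    have := congrArg Fin.val h
    simp only [hi', hj'] at this
    omega
  have key : ∀ P : Fin n → Fin 2 → ℂ, P i' ≠ P j' →
      Special P (x i + x j - 2) (fun l : Fin n => x l) := by
    intro P hPne
    refine special_of_two hPne (fun l : Fin n => x l) hi2 hj2 ?_
    refine le_trans (le_of_eq ?_) hs
    congr 1
    have h1 : ((Finset.range n).erase i).erase j =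
        ((Finset.univ.erase i').erase j').map Fin.valEmbedding := by
      rw [Finset.map_erase, Finset.map_erase, Fin.map_valEmbedding_univ]
      ext a
      simp [hi', hj']
    rw [h1, Finset.sum_map]
    rfl
  have hinj : ∀ P : Fin n → Fin 2 → ℂ,
      AlgebraicIndependent ℚ (fun ij : Fin n × Fin 2 => P ij.1 ij.2) → P i' ≠ P j' := by
    intro P hP h
    have h1 : ((i', (0 : Fin 2)) : Fin n × Fin 2) = (j', 0) := hP.injective (by
      show P i' 0 = P j' 0
      rw [h])
    exact hne (congrArg Prod.fst h1)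
  refine ⟨⟨MvPolynomial.X (i', 0) - MvPolynomial.X (j', 0), ?_, fun P hP => ?_⟩,
    fun P hP => key P (hinj P hP), key _ (hinj _ (explicit_indep (by omega)))⟩
  · intro h0
    exact hne (congrArg Prod.fst (MvPolynomial.X_injective (sub_eq_zero.1 h0)))
  · apply key
    intro h
    apply hP
    rw [map_sub, MvPolynomial.eval_X, MvPolynomial.eval_X]
    show P i' 0 - P j' 0 = 0
    rw [h, sub_self]

/-- **Segre's conjecture for random multiplicities.**

(1) Let `X 0, X 1, …` be identically distributed random multiplicities, of ANY dependence, with a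
finite second moment. Then for almost every outcome with `∑_{i < n} X i ≥ m n` for large `n`, for some
`m > 0`, there is an `N` such that for all `n ≥ N` the linear systems with the multiplicities
`X 0, …, X (n - 1)` at `n` good points are non-special in ALL degrees. Good points: general points (the
open set does not depend on the degree), all points with algebraically independent coordinates,
and the explicit points.

(2) The condition on the moments is sharp: let `ψ` be positive with `ψ(x) → ∞`, arbitrarily slowly.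
There is a law with a finite moment of `x ^ 2 / ψ(x)` such that for all sequences of independent
variables with this law, almost surely for infinitely many `n` there is a degree `d` in which the linear
system with the multiplicities `X 0, …, X (n - 1)` at all good points is special.

(3) For all `M ≥ 1` and all `n ≥ 2 ^ 22` for all but at most the proportion `(4 / 5) ^ n` of the
vectors `w` in `{0, …, M} ^ n` there are at most `10 ^ 6 M / √n` special degrees. -/
theorem result :
    (∀ (Ω : Type) [MeasurableSpace Ω] (μ : Measure Ω) [IsProbabilityMeasure μ] (X : ℕ → Ω → ℕ),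
      (∀ i, Measurable (X i)) → (∀ i, IdentDistrib (X i) (X 0) μ μ) →
      Integrable (fun ω => (X 0 ω : ℝ) ^ 2) μ →
      ∀ᵐ ω ∂μ, (∃ m : ℝ, 0 < m ∧ ∀ᶠ n : ℕ in Filter.atTop,
          m * n ≤ ∑ i ∈ Finset.range n, (X i ω : ℝ)) →
        ∃ N : ℕ, ∀ n, N ≤ n → NeverSpecial (fun i : Fin n => X i ω)) ∧
    (∀ ψ : ℕ → ℝ, (∀ x, 0 < ψ x) → Filter.Tendsto ψ Filter.atTop Filter.atTop →
      ∃ ν : Measure ℕ, IsProbabilityMeasure ν ∧ ∫⁻ x, ENNReal.ofReal ((x : ℝ) ^ 2 / ψ x) ∂ν < ⊤ ∧
        ∀ (Ω : Type) [MeasurableSpace Ω] (μ : Measure Ω) [IsProbabilityMeasure μ] (X : ℕ → Ω → ℕ),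
          (∀ i, Measurable (X i)) → iIndepFun X μ → (∀ i, μ.map (X i) = ν) →
          ∀ᵐ ω ∂μ, ∀ N : ℕ, ∃ n, N ≤ n ∧ ∃ d : ℕ,
            ForGoodPoints fun P => Special P d (fun i : Fin n => X i ω)) ∧
    (∀ n M : ℕ, 1 ≤ M → 2 ^ 22 ≤ n →
      ({w : Fin n → Fin (M + 1) | ¬ FewSpecial (10 ^ 6 * M / √n) (fun i => (w i : ℕ))}.ncard : ℝ) ≤
        (4 / 5) ^ n * ((M : ℝ) + 1) ^ n) := by
  refine ⟨?_, ?_, ?_⟩
  · intro Ω _ μ _ X hX hid hint
    filter_upwards [random μ X hX hid hint] with ω hω hm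
    obtain ⟨N, hN⟩ := hω hm
    refine ⟨N + 1, fun n hn => ?_⟩
    obtain ⟨b, hb, hb2⟩ := hN n (by omega)
    refine never_of_sum (b := b) (by omega) (fun i => hb i i.isLt) ?_
    rw [Fin.sum_univ_eq_sum_range (fun i => X i ω) n]
    exact hb2
  · intro ψ hψ0 hψ
    obtain ⟨v, s, hv0, hvs, hs2, hsk, hψk⟩ := exists_seq ψ hψ
    refine ⟨law v s, law_prob hs2 hsk, law_moment hvs hs2 ψ hψ0 hψk, ?_⟩
    intro Ω _ μ _ X hX hind hlaw
    filter_upwards [often hv0 hvs hs2 hsk μ X hX hind hlaw] with ω hω N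
    obtain ⟨n, i, j, hn, hij, hj, hi2, hj2, hs⟩ := hω N
    exact ⟨n, hn, X i ω + X j ω - 2, special_of_pair (fun l => X l ω) hij hj hi2 hj2 hs⟩
  · intro n M hM hn
    exact count_box n M _ fun w hw hb => few_of_big hM hn hw hb

end Pool.Agent.Results.MP_cfebfb_ag.RandomMultiplicities
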