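import Mathlib
import Pool.Agent.Helper79.TC.Bound

set_option autoImplicit false

/-!
# Segre's conjecture and the closure of the known classes under toric degenerations

`Void B S M` (`Pool.Agent.Helper79.TC.Void`), for finite sets `S` of lattice points and multisets `M` of
multiplicities, is the smallest set of pairs `(S, M)` (no Laurent polynomials with exponents in `S` and
with the multiplicities `M` at general points) which contains the known plane systems (`B`) and is
closed under: toric degenerations (`S` is cut by a line), integral affine maps, compression of the
columns, collisions of groups of points on arbitrary toric surfaces with the matching condition,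
division of a point into four, doubling, convexity, exchange of conditions for simple points, and
quadratic transformations of the plane. A class `(d; w)` is `Reached` if this shows that its expected
dimension is right.

(1) For every set `B` of non-special systems: at general points `h⁰ ≤ c` for every class `(d; w)` such
that `Void` holds for it together with `c` simple points; the reached classes and all classes which
finitely many reflections carry to a reached standard class are not special; if a class `(d; w)` is
special, then twice a `(-1)`-curve is a fixed part of it, or, after the removal of disjoint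
`(-1)`-curves, each taken once, and finitely many quadratic transformations, it is a special standard
class of the same dimension which is not reached.

(2) One can take for `B` the explicit set `Known`, which the library proves to be non-special; for
`k` points: `k ≥ 10` and `√k d < ∑ M`; `k ≥ 10`, `M ≤ b + 1`, `k + ∑ max M b < √k (d + 3)`; all
multiplicities `m` or `m + 1`, and `k ≥ 36` or `k = 13` or `k = 16`; 21 equal multiplicities; every
nonzero multiplicity at least `2 ^ 29` times; `4 ≤ k ≤ 9` and any three multiplicities have sum at
most `d`.
-/

namespace Pool.Agent.Results.MP_cfebfb_ag.ToricClosure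

open MvPolynomial Pool.Agent.TH167.SHDefs Pool.Agent.Helper79.TC
open Pool.Agent.Y536.SH (Standard)
open Pool.Agent.X213.Forms (ForGeneral Carries)

theorem result :
    (∀ B : ℕ → Multiset ℕ → Prop, NonSpecialSet B → ∀ (r d : ℕ) (w : Fin (r + 4) → ℕ),
      ForGeneral fun P : Fin (r + 4) → Fin 2 → ℂ =>
        (∀ c : ℕ, Void B (triangle d) (mults w + ones c) → dimL P d w < c) ∧
        ((Reached B d (mults w) ∨ ∃ (d' : ℕ) (w' : Fin (r + 4) → ℕ), Carries d w d' w' ∧
          Standard d' w' ∧ Reached B d' (mults w')) → ¬ Special P d w) ∧
        (Special P d w →
          (∃ (G : MvPolynomial (Fin 3) ℂ) (e : ℕ) (u : Fin (r + 4) → ℕ), MinusOne P G e u ∧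
            inter d w e u ≤ -2 ∧ ∀ f ∈ sys P d w, G ^ 2 ∣ f) ∨
          ∃ (d'' : ℕ) (w'' : Fin (r + 4) → ℕ) (k : ℕ) (G : Fin k → MvPolynomial (Fin 3) ℂ)
            (e : Fin k → ℕ) (u : Fin k → Fin (r + 4) → ℕ) (d' : ℕ) (w' : Fin (r + 4) → ℕ),
            Decomp P d w d'' w'' G e u (fun _ => 1) ∧
            Relation.ReflTransGen Quadratic (d'', w'') (d', w') ∧ Standard d' w' ∧
            dimL P d' w' = dimL P d w ∧ Special P d' w' ∧ ¬ Reached B d' (mults w'))) ∧
    NonSpecialSet Known := by
  refine ⟨fun B hB r d w => ?_, known_nonspecial⟩
  obtain ⟨F1, hF1, hF1'⟩ := segre_reached hB r d w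
  obtain ⟨F2, hF2, hF2'⟩ := general_bound hB d w
  refine ⟨F1 * F2, mul_ne_zero hF1 hF2, fun P hP => ?_⟩
  rw [map_mul] at hP
  exact ⟨hF2' P (right_ne_zero_of_mul hP), hF1' P (left_ne_zero_of_mul hP)⟩

end Pool.Agent.Results.MP_cfebfb_ag.ToricClosure
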